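import Mathlib

/-!
# Operator functions on the circle with indices `0` and `1` need not be equivalent to an `F_V`

Let `K = ℓ²(ℕ)` and `V : K → K` injective, with infinite-codimensional range and with
`inf ‖V e‖ = 0` over unit vectors. On `K ⊕ K ⊕ K` put
`A(z)(x, y, w) = (z⁻² x, V x + z y, z⁻¹ V x + z w)`.
Its indices are `0` and `1`, with `M₁(z) = K ⊕ Im V ⊕ Im V`. For a unit vector `e` there are
`0`-sections with `φ₊ = (e, 0, 0)`, `(z e, - V e, 0)`, `(z² e, - z V e, - V e)`. If `A` were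
equivalent to `F_W`, these would be carried to `0`-sections `ψ⁰, ψ¹, ψ²` of `F_W`, all of which
have the form `a + z b - W b`; as `V e → 0`, the differences `ψ¹ - z ψ⁰` and `ψ² - z ψ¹` become
small, which forces `ψ¹` to be small, a contradiction.
-/

open Set Metric Filter Topology

namespace Pool.Agent.Results.MP_d272b1_an.NotEquivalentFV

noncomputable section

variable {E : Type*} [NormedAddCommGroup E] [NormedSpace ℂ E]

/-- `f` is holomorphic on a neighbourhood of the set `s`. (A function holomorphic on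
`T₋ = {1 ≤ |z| ≤ ∞}` is always written in the coordinate `w = 1/z`, as a function `f` with
`HolOn (closedBall 0 1) f`: its value at `z ≠ ∞` is `f z⁻¹` and its value at `∞` is `f 0`.) -/
def HolOn {F : Type*} [NormedAddCommGroup F] [NormedSpace ℂ F] (s : Set ℂ) (f : ℂ → F) : Prop :=
  ∃ U : Set ℂ, IsOpen U ∧ s ⊆ U ∧ DifferentiableOn ℂ f U

/-- `A` is a `GL(E)`-valued holomorphic function on a neighbourhood of the set `s`. -/
def HolGL (s : Set ℂ) (A : ℂ → E →L[ℂ] E) : Prop :=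
  ∃ U : Set ℂ, IsOpen U ∧ s ⊆ U ∧ DifferentiableOn ℂ A U ∧ ∀ z ∈ U, IsUnit (A z)

/-- `S` and `T` are equivalent: `S = A₋ T A₊` on the unit circle, with `A₊` holomorphic and
invertible near `|z| ≤ 1` and `A₋(z) = Am (1/z)` holomorphic and invertible near `1 ≤ |z| ≤ ∞`. -/
def Equivalent (S T : ℂ → E →L[ℂ] E) : Prop :=
  ∃ Am Ap : ℂ → E →L[ℂ] E, HolGL (closedBall 0 1) Am ∧ HolGL (closedBall 0 1) Ap ∧
    ∀ z : ℂ, ‖z‖ = 1 → S z = Am z⁻¹ ∘L T z ∘L Ap z

/-- `(φm, φp)` is a `κ`-section of `A`: `z^κ φ₋(z) = A(z) φ₊(z)` on the unit circle, where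
`φ₊ = φp` is holomorphic near `|z| ≤ 1` and `φ₋(z) = φm (1/z)` is holomorphic near
`1 ≤ |z| ≤ ∞`. -/
def IsSection (A : ℂ → E →L[ℂ] E) (κ : ℤ) (φm φp : ℂ → E) : Prop :=
  HolOn (closedBall 0 1) φm ∧ HolOn (closedBall 0 1) φp ∧
    ∀ z : ℂ, ‖z‖ = 1 → z ^ κ • φm z⁻¹ = A z (φp z)

/-- The value `φ(z)` of a section at a point `z` of the Riemann sphere: `φ₊(z)` for `|z| ≤ 1`
and `φ₋(z)` for `1 < |z| ≤ ∞`. -/
def sectionValue (φm φp : ℂ → E) (z : OnePoint ℂ) : E :=
  z.elim (φm 0) (fun a => if ‖a‖ ≤ 1 then φp a else φm a⁻¹)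

/-- The set of all `κ` such that some `κ`-section of `A` takes the value `x` at `z`; its least
element is `κ(x, z, A)`. -/
def kappaSet (A : ℂ → E →L[ℂ] E) (x : E) (z : OnePoint ℂ) : Set ℤ :=
  {κ | ∃ φm φp : ℂ → E, IsSection A κ φm φp ∧ sectionValue φm φp z = x}

/-- `{0} ∪ {x ≠ 0 : κ(x, z, A) ≤ k}`. -/
def MSet (A : ℂ → E →L[ℂ] E) (k : ℤ) (z : OnePoint ℂ) : Set E :=
  {x | x = 0 ∨ ∃ j ≤ k, IsLeast (kappaSet A x z) j}

/-- The indices of `A` are exactly `0` and `1`, both with infinite dimension: at every point `z`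
of the Riemann sphere, `κ(x, z, A)` exists for each `x ≠ 0`, its values are exactly `0` and `1`,
and `M₁(z)` and `M₂(z) / M₁(z)` are infinite-dimensional. -/
def HasIndicesZeroOne (A : ℂ → E →L[ℂ] E) : Prop :=
  ∀ z : OnePoint ℂ,
    (∀ x : E, x ≠ 0 → ∃ k, IsLeast (kappaSet A x z) k) ∧
    {k : ℤ | ∃ x : E, x ≠ 0 ∧ IsLeast (kappaSet A x z) k} = {0, 1} ∧
    ∃ M₁ M₂ : Submodule ℂ E, (M₁ : Set E) = MSet A 0 z ∧ (M₂ : Set E) = MSet A 1 z ∧
      ¬ FiniteDimensional ℂ M₁ ∧ ¬ FiniteDimensional ℂ (M₂ ⧸ M₁.submoduleOf M₂)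

/-- The function `F_V(z) = [z⁻¹, 0; V, z]` for closed subspaces with `E = H₁ ⊕ H₂` and
`V ∈ L(H₁, H₂)`: `F_V(z) = z⁻¹ P₁ + V P₁ + z P₂` with `P₁, P₂` the projections onto `H₁`, `H₂`. -/
def FV [CompleteSpace E] (H₁ H₂ : Submodule ℂ E) (h₁ : IsClosed (H₁ : Set E))
    (h₂ : IsClosed (H₂ : Set E)) (h : IsCompl H₁ H₂) (V : H₁ →L[ℂ] H₂) (z : ℂ) : E →L[ℂ] E :=
  z⁻¹ • (H₁.subtypeL ∘L H₁.projectionOntoL H₂ (Submodule.IsCompl.isTopCompl_of_isClosed h h₁ h₂)) +
  H₂.subtypeL ∘L V ∘L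
    H₁.projectionOntoL H₂ (Submodule.IsCompl.isTopCompl_of_isClosed h h₁ h₂) +
  z • (H₂.subtypeL ∘L
    H₂.projectionOntoL H₁ (Submodule.IsCompl.isTopCompl_of_isClosed h.symm h₂ h₁))

theorem HolOn.differentiableAt {F : Type*} [NormedAddCommGroup F] [NormedSpace ℂ F] {s : Set ℂ}
    {f : ℂ → F} (h : HolOn s f) {z : ℂ} (hz : z ∈ s) : DifferentiableAt ℂ f z := by
  obtain ⟨U, hU, hs, hd⟩ := h
  exact hd.differentiableAt (hU.mem_nhds (hs hz))

theorem HolOn.analyticAt {F : Type*} [NormedAddCommGroup F] [NormedSpace ℂ F] [CompleteSpace F]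
    {s : Set ℂ}
    {f : ℂ → F} (h : HolOn s f) {z : ℂ} (hz : z ∈ s) : AnalyticAt ℂ f z := by
  obtain ⟨U, hU, hs, hd⟩ := h
  exact hd.analyticAt (hU.mem_nhds (hs hz))

theorem HolOn.continuousOn {F : Type*} [NormedAddCommGroup F] [NormedSpace ℂ F] {s : Set ℂ}
    {f : ℂ → F} (h : HolOn s f) : ContinuousOn f s := by
  obtain ⟨U, hU, hs, hd⟩ := h
  exact hd.continuousOn.mono hs

theorem liouville_glue {F : Type*} [NormedAddCommGroup F] [NormedSpace ℂ F] [CompleteSpace F]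
    {q r : ℂ → F}
    (hq : HolOn (closedBall 0 1) q) (hr : HolOn (closedBall 0 1) r)
    (h : ∀ z : ℂ, ‖z‖ = 1 → q z = r z⁻¹) :
    ∀ z : ℂ, ‖z‖ ≤ 1 → q z = r 0 ∧ r z = r 0 := by
  classical
  set g : ℂ → F := fun z => if ‖z‖ ≤ 1 then q z else r z⁻¹ with hg
  have hinv : ∀ z : ℂ, 1 ≤ ‖z‖ → z⁻¹ ∈ closedBall (0 : ℂ) 1 := by
    intro z hz
    rw [mem_closedBall_zero_iff, norm_inv]
    exact inv_le_one_of_one_le₀ hz
  have hne : ∀ z : ℂ, 1 ≤ ‖z‖ → z ≠ 0 := by
    rintro z hz rfl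
    simp at hz
    linarith
  have hra : ∀ z : ℂ, 1 ≤ ‖z‖ → AnalyticAt ℂ (fun z => r z⁻¹) z := by
    intro z hz
    exact (hr.analyticAt (hinv z hz)).comp (analyticAt_inv (hne z hz))
  have hgd : Differentiable ℂ g := by
    intro z
    rcases lt_trichotomy ‖z‖ 1 with hz | hz | hz
    · have : g =ᶠ[𝓝 z] q := by
        have : ∀ᶠ w in 𝓝 z, ‖w‖ < 1 := continuous_norm.continuousAt.eventually_lt continuousAt_const hz
        filter_upwards [this] with w hw
        simp [hg, hw.le]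
      exact ((hq.differentiableAt (mem_closedBall_zero_iff.2 hz.le)).congr_of_eventuallyEq this)
    · have h1 : ∃ᶠ w in 𝓝[≠] z, w ∈ sphere (0 : ℂ) 1 := by
        rw [← accPt_iff_frequently_nhdsNE]
        have h2 : (sphere (0 : ℂ) 1).Nontrivial := by
          refine ⟨1, by simp, -1, by simp, ?_⟩
          intro h
          have := congrArg Complex.re h
          norm_num at this
        refine IsPreconnected.preperfect_of_nontrivial h2
          (isPreconnected_sphere (by simp) 0 1) z ?_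
        simpa using hz
      have h3 : ∃ᶠ w in 𝓝[≠] z, q w = r w⁻¹ :=
        h1.mono (fun w hw => h w (by simpa using hw))
      have h4 : ∀ᶠ w in 𝓝 z, q w = r w⁻¹ :=
        ((hq.analyticAt (mem_closedBall_zero_iff.2 hz.le)).frequently_eq_iff_eventually_eq
          (hra z hz.ge)).1 h3
      have : g =ᶠ[𝓝 z] q := by
        filter_upwards [h4] with w hw
        by_cases h5 : ‖w‖ ≤ 1
        · simp [hg, h5]
        · simp [hg, h5, hw]
      exact ((hq.differentiableAt (mem_closedBall_zero_iff.2 hz.le)).congr_of_eventuallyEq this)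
    · have : g =ᶠ[𝓝 z] (fun z => r z⁻¹) := by
        have : ∀ᶠ w in 𝓝 z, 1 < ‖w‖ := continuousAt_const.eventually_lt continuous_norm.continuousAt hz
        filter_upwards [this] with w hw
        simp [hg, hw.not_ge]
      exact ((hra z hz.le).differentiableAt.congr_of_eventuallyEq this)
  have hgb : Bornology.IsBounded (range g) := by
    have h1 : Bornology.IsBounded (q '' closedBall 0 1) :=
      ((isCompact_closedBall (0 : ℂ) 1).image_of_continuousOn hq.continuousOn).isBounded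
    have h2 : Bornology.IsBounded (r '' closedBall 0 1) :=
      ((isCompact_closedBall (0 : ℂ) 1).image_of_continuousOn hr.continuousOn).isBounded
    refine (h1.union h2).subset ?_
    rintro _ ⟨z, rfl⟩
    by_cases hz : ‖z‖ ≤ 1
    · left
      refine ⟨z, by simpa using hz, by simp [hg, hz]⟩
    · right
      refine ⟨z⁻¹, hinv z (not_le.1 hz).le, by simp [hg, hz]⟩
  have hconst := hgd.apply_eq_apply_of_bounded hgb
  have hr' : ∀ w : ℂ, ‖w‖ ≤ 1 → w ≠ 0 → r w = g 0 := by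
    intro w hw hw0
    rcases eq_or_lt_of_le hw with h1 | h1
    · have : q w⁻¹ = r w := by
        have := h w⁻¹ (by simp [h1])
        simpa using this
      rw [← this]
      have h2 : g w⁻¹ = q w⁻¹ := by simp [hg, h1]
      rw [← h2]
      exact hconst _ _
    · have h2 : g w⁻¹ = r w := by
        have : ¬ ‖w⁻¹‖ ≤ 1 := by
          rw [norm_inv, not_le]
          exact (one_lt_inv₀ (norm_pos_iff.2 hw0)).2 h1
        simp only [hg, this, if_false, inv_inv]
      rw [← h2]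
      exact hconst _ _
  have hr0 : r 0 = g 0 := by
    have hc : ContinuousAt r 0 := (hr.differentiableAt (by simp)).continuousAt
    have h1 : Tendsto r (𝓝[≠] 0) (𝓝 (r 0)) := hc.tendsto.mono_left nhdsWithin_le_nhds
    have h2 : Tendsto r (𝓝[≠] 0) (𝓝 (g 0)) := by
      refine tendsto_const_nhds.congr' ?_
      have : ∀ᶠ w in 𝓝[≠] (0 : ℂ), ‖w‖ < 1 :=
        (continuous_norm.continuousAt.eventually_lt continuousAt_const (by simp)).filter_mono
          nhdsWithin_le_nhds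
      filter_upwards [this, self_mem_nhdsWithin] with w hw hw0
      exact (hr' w hw.le hw0).symm
    exact tendsto_nhds_unique h1 h2
  intro z hz
  refine ⟨?_, ?_⟩
  · rw [hr0]
    have : g z = q z := by simp [hg, hz]
    rw [← this]
    exact hconst _ _
  · by_cases h0 : z = 0
    · rw [h0]
    · rw [hr0]; exact hr' z hz h0

theorem HolOn.sub {F : Type*} [NormedAddCommGroup F] [NormedSpace ℂ F] {s : Set ℂ}
    {f g : ℂ → F} (hf : HolOn s f) (hg : HolOn s g) : HolOn s (fun z => f z - g z) := by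
  obtain ⟨U, hU, hs, hd⟩ := hf
  obtain ⟨U', hU', hs', hd'⟩ := hg
  exact ⟨U ∩ U', hU.inter hU', subset_inter hs hs',
    (hd.mono inter_subset_left).sub (hd'.mono inter_subset_right)⟩

theorem HolOn.add {F : Type*} [NormedAddCommGroup F] [NormedSpace ℂ F] {s : Set ℂ}
    {f g : ℂ → F} (hf : HolOn s f) (hg : HolOn s g) : HolOn s (fun z => f z + g z) := by
  obtain ⟨U, hU, hs, hd⟩ := hf
  obtain ⟨U', hU', hs', hd'⟩ := hg
  exact ⟨U ∩ U', hU.inter hU', subset_inter hs hs',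
    (hd.mono inter_subset_left).add (hd'.mono inter_subset_right)⟩

theorem HolOn.smul {F : Type*} [NormedAddCommGroup F] [NormedSpace ℂ F] {s : Set ℂ}
    {c : ℂ → ℂ} {f : ℂ → F} (hc : HolOn s c) (hf : HolOn s f) : HolOn s (fun z => c z • f z) := by
  obtain ⟨U, hU, hs, hd⟩ := hf
  obtain ⟨U', hU', hs', hd'⟩ := hc
  exact ⟨U' ∩ U, hU'.inter hU, subset_inter hs' hs,
    (hd'.mono inter_subset_left).smul (hd.mono inter_subset_right)⟩

theorem HolOn.of_differentiable {F : Type*} [NormedAddCommGroup F] [NormedSpace ℂ F] {s : Set ℂ}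
    {f : ℂ → F} (hf : Differentiable ℂ f) : HolOn s f :=
  ⟨univ, isOpen_univ, subset_univ _, hf.differentiableOn⟩

theorem HolOn.clm {F G : Type*} [NormedAddCommGroup F] [NormedSpace ℂ F]
    [NormedAddCommGroup G] [NormedSpace ℂ G] {s : Set ℂ}
    {f : ℂ → F} (L : F →L[ℂ] G) (hf : HolOn s f) : HolOn s (fun z => L (f z)) := by
  obtain ⟨U, hU, hs, hd⟩ := hf
  exact ⟨U, hU, hs, L.differentiable.comp_differentiableOn hd⟩

theorem cancel_z {F : Type*} [NormedAddCommGroup F] [NormedSpace ℂ F]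
    {g k : ℂ → F} (hg : HolOn (closedBall 0 1) g) (hk : HolOn (closedBall 0 1) k)
    (h : ∀ z : ℂ, ‖z‖ ≤ 1 → z • g z = z • k z) : ∀ z : ℂ, ‖z‖ ≤ 1 → g z = k z := by
  have h1 : ∀ z : ℂ, ‖z‖ ≤ 1 → z ≠ 0 → g z = k z := by
    intro z hz h0
    exact smul_right_injective F h0 (h z hz)
  intro z hz
  by_cases h0 : z = 0
  · subst h0
    have hc1 : Tendsto g (𝓝[≠] 0) (𝓝 (g 0)) :=
      (hg.differentiableAt (by simp)).continuousAt.tendsto.mono_left nhdsWithin_le_nhds
    have hc2 : Tendsto k (𝓝[≠] 0) (𝓝 (k 0)) :=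
      (hk.differentiableAt (by simp)).continuousAt.tendsto.mono_left nhdsWithin_le_nhds
    refine tendsto_nhds_unique (hc1.congr' ?_) hc2
    have : ∀ᶠ w in 𝓝[≠] (0 : ℂ), ‖w‖ < 1 :=
      (continuous_norm.continuousAt.eventually_lt continuousAt_const (by simp)).filter_mono
        nhdsWithin_le_nhds
    filter_upwards [this, self_mem_nhdsWithin] with w hw hw0
    exact h1 w hw.le hw0
  · exact h1 z hz h0

theorem HolOn.dslope0 {F : Type*} [NormedAddCommGroup F] [NormedSpace ℂ F] [CompleteSpace F]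
    {f : ℂ → F} (hf : HolOn (closedBall 0 1) f) : HolOn (closedBall 0 1) (dslope f 0) := by
  obtain ⟨U, hU, hs, hd⟩ := hf
  refine ⟨U, hU, hs, ?_⟩
  exact (Complex.differentiableOn_dslope (hU.mem_nhds (hs (by simp)))).2 hd

theorem dslope0_eq {F : Type*} [NormedAddCommGroup F] [NormedSpace ℂ F]
    (f : ℂ → F) (z : ℂ) : f z = f 0 + z • dslope f 0 z := by
  have := sub_smul_dslope f 0 z
  rw [sub_zero] at this
  rw [this]
  abel

/-- if `f z = z p(1/z)` on the circle, then `f` is affine -/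
theorem poly_one {F : Type*} [NormedAddCommGroup F] [NormedSpace ℂ F] [CompleteSpace F]
    {f p : ℂ → F} (hf : HolOn (closedBall 0 1) f) (hp : HolOn (closedBall 0 1) p)
    (h : ∀ z : ℂ, ‖z‖ = 1 → f z = z • p z⁻¹) :
    ∃ a b : F, ∀ z : ℂ, ‖z‖ ≤ 1 → f z = a + z • b ∧ p z = z • a + b := by
  have h0 : ∀ z : ℂ, ‖z‖ = 1 → z ≠ 0 := by
    rintro z hz rfl
    simp at hz
  have h1 := liouville_glue (q := dslope f 0) (r := fun w => p w - w • f 0) hf.dslope0
    (hp.sub (HolOn.smul (HolOn.of_differentiable differentiable_id)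
      (HolOn.of_differentiable (differentiable_const _)))) (by
      intro z hz
      have h2 := h z hz
      rw [dslope0_eq f z] at h2
      have h3 : z • dslope f 0 z = z • (p z⁻¹ - z⁻¹ • f 0) := by
        rw [smul_sub, ← h2, smul_smul, mul_inv_cancel₀ (h0 z hz), one_smul]
        abel
      exact smul_right_injective F (h0 z hz) h3)
  simp only [zero_smul, sub_zero] at h1
  refine ⟨f 0, p 0, fun z hz => ?_⟩
  obtain ⟨h2, h3⟩ := h1 z hz
  refine ⟨?_, ?_⟩
  · rw [dslope0_eq f z, h2]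
  · rw [← h3]; abel

/-- if `f z = z² p(1/z)` on the circle, then `f` is a polynomial of degree two -/
theorem poly_two {F : Type*} [NormedAddCommGroup F] [NormedSpace ℂ F] [CompleteSpace F]
    {f p : ℂ → F} (hf : HolOn (closedBall 0 1) f) (hp : HolOn (closedBall 0 1) p)
    (h : ∀ z : ℂ, ‖z‖ = 1 → f z = z ^ 2 • p z⁻¹) :
    ∃ a b c : F, ∀ z : ℂ, ‖z‖ ≤ 1 → f z = a + z • b + z ^ 2 • c ∧
      p z = z ^ 2 • a + z • b + c := by
  have h0 : ∀ z : ℂ, ‖z‖ = 1 → z ≠ 0 := by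
    rintro z hz rfl
    simp at hz
  obtain ⟨b, c, h1⟩ := poly_one (f := dslope f 0) (p := fun w => p w - w ^ 2 • f 0) hf.dslope0
    (hp.sub (HolOn.smul (HolOn.of_differentiable (by fun_prop))
      (HolOn.of_differentiable (differentiable_const _)))) (by
      intro z hz
      have h2 := h z hz
      rw [dslope0_eq f z] at h2
      have h3 : z • dslope f 0 z = z • (z • (p z⁻¹ - z⁻¹ ^ 2 • f 0)) := by
        rw [smul_smul, smul_sub, ← pow_two, ← h2, smul_smul, ← mul_pow,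
          mul_inv_cancel₀ (h0 z hz), one_pow, one_smul]
        abel
      exact smul_right_injective F (h0 z hz) h3)
  refine ⟨f 0, b, c, fun z hz => ?_⟩
  obtain ⟨h2, h3⟩ := h1 z hz
  refine ⟨?_, ?_⟩
  · rw [dslope0_eq f z, h2, smul_add, smul_smul, ← pow_two]; abel
  · have : p z = (p z - z ^ 2 • f 0) + z ^ 2 • f 0 := by abel
    rw [this, h3]; abel

theorem four_point {F : Type*} [NormedAddCommGroup F] [NormedSpace ℂ F] {α β γ : F} {δ : ℝ}
    (h : ∀ z : ℂ, ‖z‖ = 1 → ‖α + z • β + z ^ 2 • γ‖ ≤ δ) : ‖α‖ ≤ δ ∧ ‖γ‖ ≤ δ := by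
  have h1 := h 1 (by simp)
  have h2 := h (-1) (by simp)
  have h3 := h Complex.I (by simp)
  have h4 := h (-Complex.I) (by simp)
  simp only [one_smul, one_pow, neg_smul, neg_sq, Complex.I_sq] at h1 h2 h3 h4
  refine ⟨?_, ?_⟩
  · have h5 : (4 : ℂ) • α = (α + β + γ) + (α + -β + γ) + (α + Complex.I • β + -γ) +
        (α + -(Complex.I • β) + -γ) := by
      have : (4 : ℂ) • α = α + α + α + α := by
        rw [show (4 : ℂ) = 1 + 1 + 1 + 1 by norm_num, add_smul, add_smul, add_smul, one_smul]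
      rw [this]; abel
    have h6 : ‖(4 : ℂ) • α‖ ≤ δ + δ + δ + δ := by
      rw [h5]
      exact norm_add_le_of_le (norm_add_le_of_le (norm_add_le_of_le h1 h2) h3) h4
    rw [norm_smul] at h6
    norm_num at h6
    linarith
  · have h5 : (4 : ℂ) • γ = (α + β + γ) + (α + -β + γ) - (α + Complex.I • β + -γ) -
        (α + -(Complex.I • β) + -γ) := by
      have : (4 : ℂ) • γ = γ + γ + γ + γ := by
        rw [show (4 : ℂ) = 1 + 1 + 1 + 1 by norm_num, add_smul, add_smul, add_smul, one_smul]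
      rw [this]; abel
    have h6 : ‖(4 : ℂ) • γ‖ ≤ δ + δ + δ + δ := by
      rw [h5]
      exact norm_sub_le_of_le (norm_sub_le_of_le (norm_add_le_of_le h1 h2) h3) h4
    rw [norm_smul] at h6
    norm_num at h6
    linarith

theorem section_FV [CompleteSpace E] {H₁ H₂ : Submodule ℂ E} {h₁ : IsClosed (H₁ : Set E)}
    {h₂ : IsClosed (H₂ : Set E)} {h : IsCompl H₁ H₂} {V : H₁ →L[ℂ] H₂} {ψm ψp : ℂ → E}
    (hs : IsSection (FV H₁ H₂ h₁ h₂ h V) 0 ψm ψp) :
    ∃ a b : H₁, ∀ z : ℂ, ‖z‖ ≤ 1 → ψp z = (a : E) + z • (b : E) - (V b : E) := by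
  have ht := Submodule.IsCompl.isTopCompl_of_isClosed h h₁ h₂
  have ht' := Submodule.IsCompl.isTopCompl_of_isClosed h.symm h₂ h₁
  set P₁ := H₁.projectionOntoL H₂ ht with hP₁
  set P₂ := H₂.projectionOntoL H₁ ht' with hP₂
  have e1 : ∀ x : H₁, P₁ (x : E) = x := fun x => Submodule.projectionOntoL_apply_left ht x
  have e2 : ∀ x : H₂, P₁ (x : E) = 0 := fun x => Submodule.projectionOntoL_apply_right ht x
  have e3 : ∀ x : H₂, P₂ (x : E) = x := fun x => Submodule.projectionOntoL_apply_left ht' x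
  have e4 : ∀ x : H₁, P₂ (x : E) = 0 := fun x => Submodule.projectionOntoL_apply_right ht' x
  have e5 : ∀ x : E, ((P₁ x : H₁) : E) + ((P₂ x : H₂) : E) = x := by
    intro x
    have : x ∈ H₁ ⊔ H₂ := by rw [h.sup_eq_top]; trivial
    obtain ⟨y, hy, w, hw, rfl⟩ := Submodule.mem_sup.1 this
    have i1 : P₁ y = ⟨y, hy⟩ := e1 ⟨y, hy⟩
    have i2 : P₁ w = 0 := e2 ⟨w, hw⟩
    have i3 : P₂ w = ⟨w, hw⟩ := e3 ⟨w, hw⟩
    have i4 : P₂ y = 0 := e4 ⟨y, hy⟩
    rw [map_add, map_add, i1, i2, i3, i4, add_zero, zero_add]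
  have hFV : ∀ z x, FV H₁ H₂ h₁ h₂ h V z x =
      z⁻¹ • ((P₁ x : H₁) : E) + ((V (P₁ x) : H₂) : E) + z • ((P₂ x : H₂) : E) := by
    intro z x
    rfl
  have h0 : ∀ z : ℂ, ‖z‖ = 1 → z ≠ 0 := by
    rintro z hz rfl
    simp at hz
  obtain ⟨hm, hp, heq⟩ := hs
  have k1 : ∀ z : ℂ, ‖z‖ = 1 → P₁ (ψp z) = z • P₁ (ψm z⁻¹) := by
    intro z hz
    have := heq z hz
    rw [zpow_zero, one_smul, hFV] at this
    rw [this, map_add, map_add, map_smul, map_smul, e1, e2, e2, smul_zero, add_zero, add_zero,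
      smul_smul, mul_inv_cancel₀ (h0 z hz), one_smul]
  have k2 : ∀ z : ℂ, ‖z‖ = 1 → V (P₁ (ψp z)) + z • P₂ (ψp z) = P₂ (ψm z⁻¹) := by
    intro z hz
    have := heq z hz
    rw [zpow_zero, one_smul, hFV] at this
    rw [this, map_add, map_add, map_smul, map_smul, e4, e3, e3, smul_zero, zero_add]
  have := h₁.completeSpace_coe
  have := h₂.completeSpace_coe
  obtain ⟨a, b, hab⟩ := poly_one (hp.clm P₁) (hm.clm P₁) k1
  have k3 := liouville_glue (q := fun z => V (P₁ (ψp z)) + z • P₂ (ψp z))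
    (r := fun w => P₂ (ψm w))
    (((hp.clm P₁).clm V).add
      (HolOn.smul (HolOn.of_differentiable differentiable_id) (hp.clm P₂))) (hm.clm P₂) k2
  have k4 : ∀ z : ℂ, ‖z‖ ≤ 1 → P₂ (ψp z) = - V b := by
    refine cancel_z (hp.clm P₂) (HolOn.of_differentiable (differentiable_const _)) ?_
    intro z hz
    have j1 := (k3 z hz).1
    have j2 := (k3 0 (by simp)).1
    simp only [zero_smul, add_zero] at j2
    rw [← j2, (hab z hz).1, (hab 0 (by simp)).1, zero_smul, add_zero, map_add, map_smul] at j1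
    rw [smul_neg]
    have j3 : z • P₂ (ψp z) = (V a + z • V b + z • P₂ (ψp z)) - V a - z • V b := by abel
    rw [j3, j1]
    abel
  refine ⟨a, b, fun z hz => ?_⟩
  rw [← e5 (ψp z), k4 z hz, (hab z hz).1]
  simp [sub_eq_add_neg]

theorem equiv_section [CompleteSpace E] {A T Am Ap : ℂ → E →L[ℂ] E}
    (hm : HolGL (closedBall 0 1) Am) (hp : HolGL (closedBall 0 1) Ap)
    (h : ∀ z : ℂ, ‖z‖ = 1 → A z = Am z⁻¹ ∘L T z ∘L Ap z) {φm φp : ℂ → E}
    (hs : IsSection A 0 φm φp) :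
    IsSection T 0 (fun w => Ring.inverse (Am w) (φm w)) (fun z => Ap z (φp z)) := by
  obtain ⟨U, hU, hsU, hdU, hu⟩ := hm
  obtain ⟨W, hW, hsW, hdW, -⟩ := hp
  obtain ⟨⟨U', hU', hsU', hdU'⟩, ⟨W', hW', hsW', hdW'⟩, heq⟩ := hs
  refine ⟨⟨U ∩ U', hU.inter hU', subset_inter hsU hsU', ?_⟩,
    ⟨W ∩ W', hW.inter hW', subset_inter hsW hsW', ?_⟩, ?_⟩
  · intro w hw
    have h1 : DifferentiableWithinAt ℂ (fun w => Ring.inverse (Am w)) (U ∩ U') w := by
      have h2 : DifferentiableAt ℂ (Ring.inverse : (E →L[ℂ] E) → (E →L[ℂ] E)) (Am w) :=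
        differentiableAt_inverse (hu w hw.1)
      exact h2.comp_differentiableWithinAt w ((hdU.mono inter_subset_left) w hw)
    exact h1.clm_apply ((hdU'.mono inter_subset_right) w hw)
  · exact (hdW.mono inter_subset_left).clm_apply (hdW'.mono inter_subset_right)
  · intro z hz
    have h1 := heq z hz
    have h2 : z⁻¹ ∈ closedBall (0 : ℂ) 1 := by simp [hz]
    have h3 : Ring.inverse (Am z⁻¹) * Am z⁻¹ = 1 := Ring.inverse_mul_cancel _ (hu _ (hsU h2))
    rw [zpow_zero, one_smul] at h1 ⊢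
    change Ring.inverse (Am z⁻¹) (φm z⁻¹) = T z (Ap z (φp z))
    rw [h1, h z hz]
    have h4 := congrArg (fun L : E →L[ℂ] E => L (T z (Ap z (φp z)))) h3
    exact h4

theorem not_equivalent_FV [CompleteSpace E] {A : ℂ → E →L[ℂ] E} {c : ℝ} (hc : 0 < c)
    (hA : ∀ η : ℝ, 0 < η → ∃ φm φp : Fin 3 → ℂ → E, (∀ j, IsSection A 0 (φm j) (φp j)) ∧
      (∀ z : ℂ, ‖z‖ = 1 → ‖φp 1 z - z • φp 0 z‖ ≤ η ∧ ‖φp 2 z - z • φp 1 z‖ ≤ η) ∧
      c ≤ ‖φp 1 1‖)
    (H₁ H₂ : Submodule ℂ E) (h₁ : IsClosed (H₁ : Set E)) (h₂ : IsClosed (H₂ : Set E))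
    (h : IsCompl H₁ H₂) (V : H₁ →L[ℂ] H₂) : ¬ Equivalent A (FV H₁ H₂ h₁ h₂ h V) := by
  rintro ⟨Am, Ap, hm, hp, heq⟩
  have ht := Submodule.IsCompl.isTopCompl_of_isClosed h h₁ h₂
  set P₁ := H₁.projectionOntoL H₂ ht with hP₁
  have e1 : ∀ x : H₁, P₁ (x : E) = x := fun x => Submodule.projectionOntoL_apply_left ht x
  have e2 : ∀ x : H₂, P₁ (x : E) = 0 := fun x => Submodule.projectionOntoL_apply_right ht x
  obtain ⟨C, hC⟩ : ∃ C, ∀ z ∈ sphere (0 : ℂ) 1, ‖Ap z‖ ≤ C := by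
    obtain ⟨W, hW, hsW, hdW, -⟩ := hp
    exact (isCompact_sphere (0 : ℂ) 1).exists_bound_of_continuousOn
      (hdW.continuousOn.mono (sphere_subset_closedBall.trans hsW))
  have hC0 : 0 ≤ C := (norm_nonneg _).trans (hC 1 (by simp))
  have hu1 : Ring.inverse (Ap 1) * Ap 1 = 1 := by
    obtain ⟨W, hW, hsW, hdW, hu⟩ := hp
    exact Ring.inverse_mul_cancel _ (hu _ (hsW (by simp)))
  set K : ℝ := ‖Ring.inverse (Ap 1)‖ * ((2 + ‖V‖) * (‖P₁‖ * C)) with hK
  have hK0 : 0 ≤ K := by positivity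
  obtain ⟨φm, φp, hsec, hsmall, hbig⟩ := hA (c / (2 * (K + 1))) (by positivity)
  set η := c / (2 * (K + 1)) with hη
  have hη0 : 0 < η := by positivity
  have hψ := fun j => section_FV (equiv_section hm hp heq (hsec j))
  choose a b hab using hψ
  have d1 : ∀ j k : Fin 3, (∀ z : ℂ, ‖z‖ = 1 → ‖φp k z - z • φp j z‖ ≤ η) →
      ‖a k‖ ≤ ‖P₁‖ * C * η ∧ ‖-b j‖ ≤ ‖P₁‖ * C * η := by
    intro j k hjk
    refine four_point (β := b k - a j) ?_
    intro z hz
    have i1 : P₁ (Ap z (φp k z - z • φp j z)) = a k + z • (b k - a j) + z ^ 2 • (-b j) := by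
      rw [map_sub, map_smul, hab k z hz.le, hab j z hz.le]
      simp only [map_sub, map_add, map_smul, e1, e2]
      rw [sub_zero, sub_zero, smul_add, smul_sub, smul_smul, ← pow_two, smul_neg]
      abel
    rw [← i1]
    calc ‖P₁ (Ap z (φp k z - z • φp j z))‖ ≤ ‖P₁‖ * ‖Ap z (φp k z - z • φp j z)‖ :=
          P₁.le_opNorm _
      _ ≤ ‖P₁‖ * (C * η) := by
          refine mul_le_mul_of_nonneg_left ?_ P₁.opNorm_nonneg
          exact ((Ap z).le_opNorm _).trans
            (mul_le_mul (hC z (by simpa using hz)) (hjk z hz) (norm_nonneg _) hC0)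
      _ = ‖P₁‖ * C * η := by ring
  have d2 := (d1 0 1 (fun z hz => (hsmall z hz).1)).1
  have d3 := (d1 1 2 (fun z hz => (hsmall z hz).2)).2
  rw [norm_neg] at d3
  have d4 : ‖Ap 1 (φp 1 1)‖ ≤ (2 + ‖V‖) * (‖P₁‖ * C * η) := by
    rw [hab 1 1 (by simp), one_smul]
    calc ‖(a 1 : E) + (b 1 : E) - (V (b 1) : E)‖ ≤ ‖(a 1 : E)‖ + ‖(b 1 : E)‖ + ‖(V (b 1) : E)‖ :=
          norm_sub_le_of_le (norm_add_le _ _) le_rfl
      _ ≤ ‖P₁‖ * C * η + ‖P₁‖ * C * η + ‖V‖ * (‖P₁‖ * C * η) := by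
          refine add_le_add (add_le_add d2 d3) ?_
          exact (V.le_opNorm _).trans (mul_le_mul_of_nonneg_left d3 (norm_nonneg _))
      _ = (2 + ‖V‖) * (‖P₁‖ * C * η) := by ring
  have d5 : φp 1 1 = Ring.inverse (Ap 1) (Ap 1 (φp 1 1)) := by
    have h4 := congrArg (fun L : E →L[ℂ] E => L (φp 1 1)) hu1
    exact h4.symm
  have d6 : ‖φp 1 1‖ ≤ K * η := by
    rw [d5]
    calc _ ≤ ‖Ring.inverse (Ap 1)‖ * ‖Ap 1 (φp 1 1)‖ := ContinuousLinearMap.le_opNorm _ _
      _ ≤ ‖Ring.inverse (Ap 1)‖ * ((2 + ‖V‖) * (‖P₁‖ * C * η)) :=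
          mul_le_mul_of_nonneg_left d4 (norm_nonneg _)
      _ = K * η := by rw [hK]; ring
  have d7 : K * η < c := by
    rw [hη, mul_div_assoc', div_lt_iff₀ (by positivity)]
    nlinarith
  linarith

section model

variable {K : Type*} [NormedAddCommGroup K] [NormedSpace ℂ K]

/-- first coordinate -/
def p1 : (K × K × K) →L[ℂ] K := ContinuousLinearMap.fst ℂ K (K × K)

/-- second coordinate -/
def p2 : (K × K × K) →L[ℂ] K := (ContinuousLinearMap.fst ℂ K K) ∘L ContinuousLinearMap.snd ℂ K (K × K)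

/-- third coordinate -/
def p3 : (K × K × K) →L[ℂ] K := (ContinuousLinearMap.snd ℂ K K) ∘L ContinuousLinearMap.snd ℂ K (K × K)

/-- The example on `K × K × K`:
`A(z)(x, y, w) = (z⁻² x, V x + z y, z⁻¹ V x + z w)`. -/
def A0 (V : K →L[ℂ] K) (z : ℂ) : (K × K × K) →L[ℂ] (K × K × K) :=
  z⁻¹ ^ 2 • (p1.prod ((0 : (K × K × K) →L[ℂ] K).prod 0)) +
  (0 : (K × K × K) →L[ℂ] K).prod ((V ∘L p1).prod 0) +
  z • ((0 : (K × K × K) →L[ℂ] K).prod (p2.prod p3)) +
  z⁻¹ • ((0 : (K × K × K) →L[ℂ] K).prod ((0 : (K × K × K) →L[ℂ] K).prod (V ∘L p1)))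

/-- The pointwise inverse of the example. -/
def B0 (V : K →L[ℂ] K) (z : ℂ) : (K × K × K) →L[ℂ] (K × K × K) :=
  z ^ 2 • (p1.prod ((0 : (K × K × K) →L[ℂ] K).prod 0)) -
  z • (0 : (K × K × K) →L[ℂ] K).prod ((V ∘L p1).prod 0) +
  z⁻¹ • ((0 : (K × K × K) →L[ℂ] K).prod (p2.prod p3)) -
  ((0 : (K × K × K) →L[ℂ] K).prod ((0 : (K × K × K) →L[ℂ] K).prod (V ∘L p1)))

theorem A0_apply (V : K →L[ℂ] K) (z : ℂ) (x : K × K × K) :
    A0 V z x = (z⁻¹ ^ 2 • x.1, V x.1 + z • x.2.1, z⁻¹ • V x.1 + z • x.2.2) := by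
  simp only [A0, p1, p2, p3, ContinuousLinearMap.add_apply, ContinuousLinearMap.smul_apply,
    ContinuousLinearMap.prod_apply, ContinuousLinearMap.comp_apply, ContinuousLinearMap.coe_fst',
    ContinuousLinearMap.coe_snd', ContinuousLinearMap.zero_apply]
  ext <;> simp [add_comm]

theorem B0_apply (V : K →L[ℂ] K) (z : ℂ) (x : K × K × K) :
    B0 V z x = (z ^ 2 • x.1, z⁻¹ • x.2.1 - z • V x.1, z⁻¹ • x.2.2 - V x.1) := by
  simp only [B0, p1, p2, p3, ContinuousLinearMap.add_apply, ContinuousLinearMap.smul_apply,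
    ContinuousLinearMap.prod_apply, ContinuousLinearMap.comp_apply, ContinuousLinearMap.coe_fst',
    ContinuousLinearMap.coe_snd', ContinuousLinearMap.zero_apply, ContinuousLinearMap.sub_apply]
  ext
  · simp
  · simp; abel
  · simp

theorem isUnit_A0 (V : K →L[ℂ] K) {z : ℂ} (hz : z ≠ 0) : IsUnit (A0 V z) := by
  refine ⟨⟨A0 V z, B0 V z, ?_, ?_⟩, rfl⟩
  · ext x
    all_goals
      simp only [ContinuousLinearMap.mul_apply, A0_apply, B0_apply, ContinuousLinearMap.comp_apply,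
        ContinuousLinearMap.one_apply, map_smul]
    all_goals simp [smul_smul, hz]
    all_goals try field_simp
    all_goals try simp
  · ext x
    all_goals
      simp only [ContinuousLinearMap.mul_apply, A0_apply, B0_apply, ContinuousLinearMap.comp_apply,
        ContinuousLinearMap.one_apply, map_smul]
    all_goals simp [smul_smul, hz]
    all_goals try field_simp
    all_goals try simp

end model

section sections

variable {K : Type*} [NormedAddCommGroup K] [NormedSpace ℂ K]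

theorem inv_pow_smul_cancel {z : ℂ} (hz : z ≠ 0) (x : K) : z ^ 2 • z⁻¹ ^ 2 • x = x := by
  rw [smul_smul, ← mul_pow, mul_inv_cancel₀ hz, one_pow, one_smul]

theorem hol_id {s : Set ℂ} : HolOn s (fun z : ℂ => z) := HolOn.of_differentiable differentiable_id

theorem sec_zero [CompleteSpace K] {V : K →L[ℂ] K} {φm φp : ℂ → K × K × K}
    (hs : IsSection (A0 V) 0 φm φp) :
    ∃ a b c : K, ∀ z : ℂ, ‖z‖ ≤ 1 →
      φp z = (a + z • b + z ^ 2 • c, -V b - z • V c, -V c) ∧
      φm z = (z ^ 2 • a + z • b + c, V a, z • V a + V b) := by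
  obtain ⟨hm, hp, heq⟩ := hs
  have h0 : ∀ z : ℂ, ‖z‖ = 1 → z ≠ 0 := by
    rintro z hz rfl
    simp at hz
  have heq' : ∀ z : ℂ, ‖z‖ = 1 → φm z⁻¹ =
      (z⁻¹ ^ 2 • (φp z).1, V (φp z).1 + z • (φp z).2.1, z⁻¹ • V (φp z).1 + z • (φp z).2.2) := by
    intro z hz
    rw [← A0_apply, ← heq z hz, zpow_zero, one_smul]
  have hp1 : HolOn (closedBall 0 1) (fun z => (φp z).1) := hp.clm p1
  have hp2 : HolOn (closedBall 0 1) (fun z => (φp z).2.1) := hp.clm p2
  have hp3 : HolOn (closedBall 0 1) (fun z => (φp z).2.2) := hp.clm p3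
  have hm1 : HolOn (closedBall 0 1) (fun z => (φm z).1) := hm.clm p1
  have hm2 : HolOn (closedBall 0 1) (fun z => (φm z).2.1) := hm.clm p2
  have hm3 : HolOn (closedBall 0 1) (fun z => (φm z).2.2) := hm.clm p3
  obtain ⟨a, b, c, habc⟩ := poly_two hp1 hm1 (by
    intro z hz
    have := congrArg Prod.fst (heq' z hz)
    simp only at this
    simp only [this]
    exact (inv_pow_smul_cancel (h0 z hz) _).symm)
  have k2 := liouville_glue (q := fun z => V (φp z).1 + z • (φp z).2.1)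
    (r := fun w => (φm w).2.1) ((hp1.clm V).add (hol_id.smul hp2)) hm2 (by
      intro z hz
      have := congrArg (fun x : K × K × K => x.2.1) (heq' z hz)
      simp only at this
      simp only [this])
  have e0 : (φp 0).1 = a := by
    have := (habc 0 (by simp)).1
    simpa using this
  have k3 : ∀ z : ℂ, ‖z‖ ≤ 1 → (φp z).2.1 = -V b - z • V c ∧ (φm z).2.1 = V a := by
    have j0 : (φm 0).2.1 = V a := by
      have := (k2 0 (by simp)).1
      rw [zero_smul, add_zero, e0] at this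
      exact this.symm
    have j1 : ∀ z : ℂ, ‖z‖ ≤ 1 → (φp z).2.1 = -V b - z • V c := by
      refine cancel_z hp2 (HolOn.of_differentiable (by fun_prop)) ?_
      intro z hz
      have j2 := (k2 z hz).1
      rw [j0, (habc z hz).1, map_add, map_add, map_smul, map_smul] at j2
      have j3 : z • (φp z).2.1 = (V a + z • V b + z ^ 2 • V c + z • (φp z).2.1) - V a
          - z • V b - z ^ 2 • V c := by abel
      rw [j3, j2, smul_sub, smul_neg, smul_smul, ← pow_two]
      abel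
    intro z hz
    exact ⟨j1 z hz, by rw [(k2 z hz).2, j0]⟩
  have k4 : ∀ z : ℂ, ‖z‖ ≤ 1 → (φp z).2.2 = - V c ∧ (φm z).2.2 = z • V a + V b := by
    obtain ⟨α, β, hαβ⟩ := poly_one (f := fun z => V (φp z).1 + z ^ 2 • (φp z).2.2)
      (p := fun w => (φm w).2.2)
      ((hp1.clm V).add (HolOn.smul (HolOn.of_differentiable (by fun_prop)) hp3)) hm3 (by
        intro z hz
        have := congrArg (fun x : K × K × K => x.2.2) (heq' z hz)
        simp only at this
        simp only [this]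
        rw [smul_add, smul_smul, smul_smul, mul_inv_cancel₀ (h0 z hz), one_smul, ← pow_two])
    have j0 : α = V a := by
      have := (hαβ 0 (by simp)).1
      rw [e0] at this
      simpa using this.symm
    have j1 : ∀ z : ℂ, ‖z‖ ≤ 1 → z • (φp z).2.2 = β - V b - z • V c := by
      refine cancel_z (hol_id.smul hp3) (HolOn.of_differentiable (by fun_prop)) ?_
      intro z hz
      have j2 := (hαβ z hz).1
      rw [j0, (habc z hz).1, map_add, map_add, map_smul, map_smul] at j2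
      have j3 : z • z • (φp z).2.2 = (V a + z • V b + z ^ 2 • V c + z ^ 2 • (φp z).2.2) - V a
          - z • V b - z ^ 2 • V c := by rw [smul_smul, ← pow_two]; abel
      rw [j3, j2, smul_sub, smul_sub, smul_smul, ← pow_two]
      abel
    have j4 : β = V b := by
      have := j1 0 (by simp)
      rw [zero_smul, zero_smul, sub_zero] at this
      exact (sub_eq_zero.1 this.symm)
    have j5 : ∀ z : ℂ, ‖z‖ ≤ 1 → (φp z).2.2 = - V c := by
      refine cancel_z hp3 (HolOn.of_differentiable (differentiable_const _)) ?_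
      intro z hz
      rw [j1 z hz, j4, sub_self, zero_sub, smul_neg]
    intro z hz
    refine ⟨j5 z hz, ?_⟩
    rw [(hαβ z hz).2, j0, j4]
  refine ⟨a, b, c, fun z hz => ⟨?_, ?_⟩⟩
  · refine Prod.ext ?_ (Prod.ext ?_ ?_)
    · exact (habc z hz).1
    · exact (k3 z hz).1
    · exact (k4 z hz).1
  · refine Prod.ext ?_ (Prod.ext ?_ ?_)
    · exact (habc z hz).2
    · exact (k3 z hz).2
    · exact (k4 z hz).2

theorem sec_neg [CompleteSpace K] {V : K →L[ℂ] K} (hV : Function.Injective V) {κ : ℤ}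
    (hκ : κ < 0) {φm φp : ℂ → K × K × K}
    (hs : IsSection (A0 V) κ φm φp) :
    ∀ z : ℂ, ‖z‖ ≤ 1 → φp z = 0 ∧ φm z = 0 := by
  obtain ⟨m, rfl⟩ : ∃ m : ℕ, κ = -((m : ℤ) + 1) := ⟨(-κ - 1).toNat, by omega⟩
  obtain ⟨hm, hp, heq⟩ := hs
  have h0 : ∀ z : ℂ, ‖z‖ = 1 → z ≠ 0 := by
    rintro z hz rfl
    simp at hz
  have heq' : ∀ z : ℂ, ‖z‖ = 1 → z⁻¹ • (z⁻¹ ^ m • φm z⁻¹) =
      (z⁻¹ ^ 2 • (φp z).1, V (φp z).1 + z • (φp z).2.1, z⁻¹ • V (φp z).1 + z • (φp z).2.2) := by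
    intro z hz
    rw [← A0_apply, ← heq z hz, smul_smul, ← pow_succ', zpow_neg, inv_pow]
    norm_cast
  have hn : HolOn (closedBall 0 1) (fun w => w ^ m • φm w) :=
    HolOn.smul (HolOn.of_differentiable (by fun_prop)) hm
  have hp1 : HolOn (closedBall 0 1) (fun z => (φp z).1) := hp.clm p1
  have hp2 : HolOn (closedBall 0 1) (fun z => (φp z).2.1) := hp.clm p2
  have hp3 : HolOn (closedBall 0 1) (fun z => (φp z).2.2) := hp.clm p3
  have hm1 : HolOn (closedBall 0 1) (fun w => (w ^ m • φm w).1) := hn.clm p1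
  have hm2 : HolOn (closedBall 0 1) (fun w => (w ^ m • φm w).2.1) := hn.clm p2
  have hm3 : HolOn (closedBall 0 1) (fun w => (w ^ m • φm w).2.2) := hn.clm p3
  obtain ⟨a, b, hab⟩ := poly_one hp1 hm1 (by
    intro z hz
    have h1 := congrArg Prod.fst (heq' z hz)
    rw [Prod.smul_fst] at h1
    simp only at h1 ⊢
    have h2 : (z⁻¹ ^ m • φm z⁻¹).1 = z • z⁻¹ • (z⁻¹ ^ m • φm z⁻¹).1 := by
      rw [smul_smul, mul_inv_cancel₀ (h0 z hz), one_smul]
    rw [h2, h1, smul_smul, ← pow_two]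
    exact (inv_pow_smul_cancel (h0 z hz) _).symm)
  have k2 := liouville_glue (q := fun z => V (φp z).1 + z • (φp z).2.1)
    (r := fun w => w • (w ^ m • φm w).2.1) ((hp1.clm V).add (hol_id.smul hp2))
    (hol_id.smul hm2) (by
      intro z hz
      have := congrArg (fun x : K × K × K => x.2.1) (heq' z hz)
      simp only at this
      rw [← this]
      rfl)
  simp only [zero_smul] at k2
  have ha : a = 0 := by
    have h1 := (k2 0 (by simp)).1
    rw [zero_smul, add_zero, (hab 0 (by simp)).1, zero_smul, add_zero] at h1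
    exact hV (by rw [h1, map_zero])
  have k3 := liouville_glue (q := fun z => V b + z • (φp z).2.2)
    (r := fun w => w • (w ^ m • φm w).2.2)
    ((HolOn.of_differentiable (differentiable_const _)).add (hol_id.smul hp3))
    (hol_id.smul hm3) (by
      intro z hz
      have h1 := congrArg (fun x : K × K × K => x.2.2) (heq' z hz)
      simp only at h1
      have e1 : z⁻¹ • z • V b = V b := by
        rw [smul_smul, inv_mul_cancel₀ (h0 z hz), one_smul]
      rw [(hab z hz.le).1, ha, zero_add, map_smul, e1] at h1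
      rw [← h1]
      rfl)
  simp only [zero_smul] at k3
  have hb : b = 0 := by
    have h1 := (k3 0 (by simp)).1
    rw [zero_smul, add_zero] at h1
    exact hV (by rw [h1, map_zero])
  have f1 : ∀ z : ℂ, ‖z‖ ≤ 1 → (φp z).1 = 0 := by
    intro z hz
    rw [(hab z hz).1, ha, hb, smul_zero, add_zero]
  have f2 : ∀ z : ℂ, ‖z‖ ≤ 1 → (φp z).2.1 = 0 := by
    refine cancel_z hp2 (HolOn.of_differentiable (differentiable_const _)) ?_
    intro z hz
    have := (k2 z hz).1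
    rw [f1 z hz, map_zero, zero_add] at this
    rw [this, smul_zero]
  have f3 : ∀ z : ℂ, ‖z‖ ≤ 1 → (φp z).2.2 = 0 := by
    refine cancel_z hp3 (HolOn.of_differentiable (differentiable_const _)) ?_
    intro z hz
    have := (k3 z hz).1
    rw [hb, map_zero, zero_add] at this
    rw [this, smul_zero]
  have f4 : ∀ z : ℂ, ‖z‖ ≤ 1 → φp z = 0 := fun z hz =>
    Prod.ext (f1 z hz) (Prod.ext (f2 z hz) (f3 z hz))
  have k5 := liouville_glue (q := fun _ => (0 : K × K × K)) (r := φm)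
    (HolOn.of_differentiable (differentiable_const _)) hm (by
      intro z hz
      have := heq z hz
      rw [f4 z hz.le, map_zero] at this
      exact ((smul_eq_zero.1 this).resolve_left (zpow_ne_zero _ (h0 z hz))).symm)
  intro z hz
  refine ⟨f4 z hz, ?_⟩
  rw [(k5 z hz).2, ← (k5 z hz).1]

end sections

section indices

theorem sectionValue_or (z : OnePoint ℂ) :
    (∃ a : ℂ, ‖a‖ ≤ 1 ∧ ∀ φm φp : ℂ → E, sectionValue φm φp z = φp a) ∨
    (∃ w : ℂ, ‖w‖ ≤ 1 ∧ ∀ φm φp : ℂ → E, sectionValue φm φp z = φm w) := by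
  induction z using OnePoint.rec with
  | infty => exact Or.inr ⟨0, by simp, fun _ _ => rfl⟩
  | coe a =>
    by_cases h : ‖a‖ ≤ 1
    · refine Or.inl ⟨a, h, fun φm φp => ?_⟩
      simp [sectionValue, h]
    · refine Or.inr ⟨a⁻¹, ?_, fun φm φp => ?_⟩
      · rw [norm_inv]
        exact inv_le_one_of_one_le₀ (not_le.1 h).le
      · simp [sectionValue, h]

theorem hasIndices_of {A : ℂ → E →L[ℂ] E} {S : Submodule ℂ E}
    (h1 : ∀ (x : E) (z : OnePoint ℂ), x ≠ 0 → ∀ κ ∈ kappaSet A x z, 0 ≤ κ)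
    (h2 : ∀ (x : E) (z : OnePoint ℂ), (1 : ℤ) ∈ kappaSet A x z)
    (h3 : ∀ (x : E) (z : OnePoint ℂ), (0 : ℤ) ∈ kappaSet A x z ↔ x ∈ S)
    (h4 : ¬ FiniteDimensional ℂ S) (h5 : ¬ FiniteDimensional ℂ (E ⧸ S)) :
    HasIndicesZeroOne A := by
  have g0 : ∀ (x : E) (z : OnePoint ℂ), x ≠ 0 → x ∈ S → IsLeast (kappaSet A x z) 0 :=
    fun x z hx hS => ⟨(h3 x z).2 hS, fun κ hκ => h1 x z hx κ hκ⟩
  have g1 : ∀ (x : E) (z : OnePoint ℂ), x ≠ 0 → x ∉ S → IsLeast (kappaSet A x z) 1 := by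
    intro x z hx hS
    refine ⟨h2 x z, fun κ hκ => ?_⟩
    have i1 := h1 x z hx κ hκ
    have i2 : κ ≠ 0 := by
      rintro rfl
      exact hS ((h3 x z).1 hκ)
    omega
  intro z
  refine ⟨?_, ?_, S, ⊤, ?_, ?_, h4, ?_⟩
  · intro x hx
    by_cases hS : x ∈ S
    · exact ⟨0, g0 x z hx hS⟩
    · exact ⟨1, g1 x z hx hS⟩
  · ext k
    simp only [mem_setOf_eq, mem_insert_iff, mem_singleton_iff]
    constructor
    · rintro ⟨x, hx, hk⟩
      by_cases hS : x ∈ S
      · exact Or.inl (hk.unique (g0 x z hx hS))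
      · exact Or.inr (hk.unique (g1 x z hx hS))
    · rintro (rfl | rfl)
      · have : S ≠ ⊥ := by
          rintro rfl
          exact h4 inferInstance
        obtain ⟨x, hx, hx0⟩ := S.ne_bot_iff.1 this
        exact ⟨x, hx0, g0 x z hx0 hx⟩
      · have : ∃ x, x ∉ S := by
          by_contra hcon
          push Not at hcon
          have : S = ⊤ := by
            ext x; simp [hcon x]
          subst this
          exact h5 inferInstance
        obtain ⟨x, hx⟩ := this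
        have hx0 : x ≠ 0 := by
          rintro rfl
          exact hx S.zero_mem
        exact ⟨x, hx0, g1 x z hx0 hx⟩
  · ext x
    simp only [MSet, mem_setOf_eq, SetLike.mem_coe]
    constructor
    · intro hx
      by_cases hx0 : x = 0
      · exact Or.inl hx0
      · exact Or.inr ⟨0, le_rfl, g0 x z hx0 hx⟩
    · rintro (rfl | ⟨j, hj, hl⟩)
      · exact S.zero_mem
      · by_contra hx
        have hx0 : x ≠ 0 := by
          rintro rfl
          exact hx S.zero_mem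
        have := hl.unique (g1 x z hx0 hx)
        omega
  · ext x
    simp only [MSet, mem_setOf_eq, SetLike.mem_coe, Submodule.mem_top, true_iff]
    by_cases hx0 : x = 0
    · exact Or.inl hx0
    · right
      by_cases hS : x ∈ S
      · exact ⟨0, by norm_num, g0 x z hx0 hS⟩
      · exact ⟨1, le_rfl, g1 x z hx0 hS⟩
  · intro hfd
    apply h5
    let L : E →ₗ[ℂ] ((⊤ : Submodule ℂ E) ⧸ S.submoduleOf ⊤) :=
      (S.submoduleOf ⊤).mkQ ∘ₗ (LinearMap.codRestrict ⊤ LinearMap.id (fun _ => trivial))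
    have hker : LinearMap.ker L = S := by
      ext x
      rw [LinearMap.mem_ker]
      change (Submodule.Quotient.mk (⟨x, trivial⟩ : (⊤ : Submodule ℂ E)) :
        (⊤ : Submodule ℂ E) ⧸ S.submoduleOf ⊤) = 0 ↔ x ∈ S
      rw [Submodule.Quotient.mk_eq_zero]
      rfl
    have hinj : Function.Injective (S.liftQ L hker.ge) := by
      rw [← LinearMap.ker_eq_bot]
      exact Submodule.ker_liftQ_eq_bot _ _ _ hker.le
    exact Module.Finite.of_injective _ hinj

end indices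

section conj

variable {E' : Type*} [NormedAddCommGroup E'] [NormedSpace ℂ E']

/-- conjugation of an operator function by a fixed isomorphism -/
def conj (Φ : E ≃L[ℂ] E') (B : ℂ → E' →L[ℂ] E') (z : ℂ) : E →L[ℂ] E :=
  (Φ.symm : E' →L[ℂ] E) ∘L B z ∘L (Φ : E →L[ℂ] E')

theorem isSection_conj {Φ : E ≃L[ℂ] E'} {B : ℂ → E' →L[ℂ] E'} {κ : ℤ} {φm φp : ℂ → E}
    (h : IsSection (conj Φ B) κ φm φp) :
    IsSection B κ (fun z => Φ (φm z)) (fun z => Φ (φp z)) := by
  obtain ⟨h1, h2, h3⟩ := h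
  refine ⟨h1.clm (Φ : E →L[ℂ] E'), h2.clm (Φ : E →L[ℂ] E'), fun z hz => ?_⟩
  have := congrArg Φ (h3 z hz)
  rw [map_smul] at this
  rw [this]
  simp [conj]

theorem isSection_conj' {Φ : E ≃L[ℂ] E'} {B : ℂ → E' →L[ℂ] E'} {κ : ℤ} {φm φp : ℂ → E'}
    (h : IsSection B κ φm φp) :
    IsSection (conj Φ B) κ (fun z => Φ.symm (φm z)) (fun z => Φ.symm (φp z)) := by
  obtain ⟨h1, h2, h3⟩ := h
  refine ⟨h1.clm (Φ.symm : E' →L[ℂ] E), h2.clm (Φ.symm : E' →L[ℂ] E), fun z hz => ?_⟩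
  have := congrArg Φ.symm (h3 z hz)
  rw [map_smul] at this
  rw [this]
  simp [conj]

theorem sectionValue_map {F : Type*} (f : E → F) (φm φp : ℂ → E) (z : OnePoint ℂ) :
    f (sectionValue φm φp z) =
      z.elim (f (φm 0)) (fun a => if ‖a‖ ≤ 1 then f (φp a) else f (φm a⁻¹)) := by
  induction z using OnePoint.rec with
  | infty => rfl
  | coe a =>
    by_cases h : ‖a‖ ≤ 1
    · simp [sectionValue, h]
    · simp [sectionValue, h]

theorem kappaSet_conj (Φ : E ≃L[ℂ] E') (B : ℂ → E' →L[ℂ] E') (x : E) (z : OnePoint ℂ) :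
    kappaSet (conj Φ B) x z = kappaSet B (Φ x) z := by
  ext κ
  constructor
  · rintro ⟨φm, φp, hs, hv⟩
    refine ⟨_, _, isSection_conj hs, ?_⟩
    rw [← hv, sectionValue_map (fun y => Φ y)]
    rfl
  · rintro ⟨φm, φp, hs, hv⟩
    refine ⟨_, _, isSection_conj' (Φ := Φ) hs, ?_⟩
    have := congrArg Φ.symm hv
    rw [Φ.symm_apply_apply, sectionValue_map (fun y => Φ.symm y)] at this
    rw [← this]
    rfl

end conj

section modelfacts

variable {K : Type*} [NormedAddCommGroup K] [NormedSpace ℂ K]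

theorem isSection_zero (V : K →L[ℂ] K) (a b c : K) :
    IsSection (A0 V) 0 (fun z => (z ^ 2 • a + z • b + c, V a, z • V a + V b))
      (fun z => (a + z • b + z ^ 2 • c, -V b - z • V c, -V c)) := by
  refine ⟨HolOn.of_differentiable (by fun_prop), HolOn.of_differentiable (by fun_prop), ?_⟩
  intro z hz
  have h0 : z ≠ 0 := by
    rintro rfl
    simp at hz
  have h1 : z⁻¹ * z = 1 := inv_mul_cancel₀ h0
  rw [zpow_zero, one_smul, A0_apply]
  refine Prod.ext ?_ (Prod.ext ?_ ?_)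
  · simp only [smul_add, smul_smul]
    rw [show z⁻¹ ^ 2 * z = z⁻¹ * (z⁻¹ * z) by ring, h1,
      show z⁻¹ ^ 2 * z ^ 2 = (z⁻¹ * z) ^ 2 by ring, h1, mul_one, one_pow, one_smul]
  · simp only [map_add, map_smul, smul_sub, smul_neg, smul_smul]
    rw [← pow_two]
    abel
  · simp only [map_add, map_smul, smul_add, smul_neg, smul_smul]
    rw [show z⁻¹ * z ^ 2 = (z⁻¹ * z) * z by ring, h1, one_mul, one_smul]
    abel

theorem isSection_one_p (V : K →L[ℂ] K) (x : K × K × K) :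
    IsSection (A0 V) 1 (fun w => (w ^ 3 • x.1, w • V x.1 + x.2.1, w ^ 2 • V x.1 + x.2.2))
      (fun _ => x) := by
  refine ⟨HolOn.of_differentiable (by fun_prop), HolOn.of_differentiable (by fun_prop), ?_⟩
  intro z hz
  have h0 : z ≠ 0 := by
    rintro rfl
    simp at hz
  have h1 : z * z⁻¹ = 1 := mul_inv_cancel₀ h0
  rw [zpow_one, A0_apply]
  refine Prod.ext ?_ (Prod.ext ?_ ?_)
  · simp only [Prod.smul_mk, smul_smul]
    rw [show z * z⁻¹ ^ 3 = (z * z⁻¹) * z⁻¹ ^ 2 by ring, h1, one_mul]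
  · simp only [Prod.smul_mk, smul_add, smul_smul]
    rw [h1, one_smul]
  · simp only [Prod.smul_mk, smul_add, smul_smul]
    rw [show z * z⁻¹ ^ 2 = (z * z⁻¹) * z⁻¹ by ring, h1, one_mul]

theorem isSection_one_m (V : K →L[ℂ] K) (x : K × K × K) :
    IsSection (A0 V) 1 (fun _ => x)
      (fun z => (z ^ 3 • x.1, x.2.1 - z ^ 2 • V x.1, x.2.2 - z • V x.1)) := by
  refine ⟨HolOn.of_differentiable (by fun_prop), HolOn.of_differentiable (by fun_prop), ?_⟩
  intro z hz
  have h0 : z ≠ 0 := by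
    rintro rfl
    simp at hz
  have h1 : z * z⁻¹ = 1 := mul_inv_cancel₀ h0
  rw [zpow_one, A0_apply]
  refine Prod.ext ?_ (Prod.ext ?_ ?_)
  · simp only [Prod.smul_fst, smul_smul]
    rw [show z⁻¹ ^ 2 * z ^ 3 = (z * z⁻¹) ^ 2 * z by ring, h1, one_pow, one_mul]
  · simp only [Prod.smul_fst, Prod.smul_snd, map_smul, smul_sub, smul_smul]
    rw [show z * z ^ 2 = z ^ 3 by ring]
    abel
  · simp only [Prod.smul_snd, map_smul, smul_sub, smul_smul]
    rw [show z⁻¹ * z ^ 3 = (z * z⁻¹) * (z * z) by ring, h1, one_mul]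
    abel

theorem kappa_nonneg [CompleteSpace K] {V : K →L[ℂ] K} (hV : Function.Injective V)
    (x : K × K × K) (z : OnePoint ℂ) (hx : x ≠ 0) (κ : ℤ) (hκ : κ ∈ kappaSet (A0 V) x z) :
    0 ≤ κ := by
  by_contra hneg
  push Not at hneg
  obtain ⟨φm, φp, hs, hv⟩ := hκ
  have h1 := sec_neg hV hneg hs
  rcases sectionValue_or (E := K × K × K) z with ⟨a, ha, hf⟩ | ⟨a, ha, hf⟩
  · rw [hf] at hv
    exact hx (hv ▸ (h1 a ha).1)
  · rw [hf] at hv
    exact hx (hv ▸ (h1 a ha).2)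

theorem kappa_one (V : K →L[ℂ] K) (x : K × K × K) (z : OnePoint ℂ) :
    (1 : ℤ) ∈ kappaSet (A0 V) x z := by
  rcases sectionValue_or (E := K × K × K) z with ⟨a, ha, hf⟩ | ⟨a, ha, hf⟩
  · exact ⟨_, _, isSection_one_p V x, by rw [hf]⟩
  · exact ⟨_, _, isSection_one_m V x, by rw [hf]⟩

/-- the subspace `K × Im V × Im V` -/
def SV (V : K →L[ℂ] K) : Submodule ℂ (K × K × K) :=
  (⊤ : Submodule ℂ K).prod
    ((LinearMap.range (V : K →ₗ[ℂ] K)).prod (LinearMap.range (V : K →ₗ[ℂ] K)))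

theorem mem_SV (V : K →L[ℂ] K) (x : K × K × K) :
    x ∈ SV V ↔ (∃ a, V a = x.2.1) ∧ ∃ b, V b = x.2.2 := by
  simp [SV, Submodule.mem_prod]

theorem kappa_zero [CompleteSpace K] (V : K →L[ℂ] K) (x : K × K × K) (z : OnePoint ℂ) :
    (0 : ℤ) ∈ kappaSet (A0 V) x z ↔ x ∈ SV V := by
  rw [mem_SV]
  constructor
  · rintro ⟨φm, φp, hs, hv⟩
    obtain ⟨a, b, c, habc⟩ := sec_zero hs
    rcases sectionValue_or (E := K × K × K) z with ⟨t, ht, hf⟩ | ⟨t, ht, hf⟩
    · rw [hf, (habc t ht).1] at hv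
      rw [← hv]
      exact ⟨⟨-b - t • c, by simp⟩, ⟨-c, by simp⟩⟩
    · rw [hf, (habc t ht).2] at hv
      rw [← hv]
      exact ⟨⟨a, rfl⟩, ⟨t • a + b, by simp⟩⟩
  · rintro ⟨⟨a, ha⟩, ⟨b, hb⟩⟩
    rcases sectionValue_or (E := K × K × K) z with ⟨t, ht, hf⟩ | ⟨t, ht, hf⟩
    · refine ⟨_, _, isSection_zero V (x.1 + t • a) (-a + t • b) (-b), ?_⟩
      rw [hf]
      refine Prod.ext ?_ (Prod.ext ?_ ?_)
      · simp only [smul_add, smul_neg, smul_smul, ← pow_two]
        abel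
      · simp only [map_add, map_neg, map_smul, smul_neg, ha]
        abel
      · simp only [map_neg, hb, neg_neg]
    · refine ⟨_, _, isSection_zero V a (b - t • a) (x.1 - t • b), ?_⟩
      rw [hf]
      refine Prod.ext ?_ (Prod.ext ?_ ?_)
      · simp only [smul_sub, smul_smul, ← pow_two]
        abel
      · simp only [ha]
      · simp only [map_sub, map_smul, hb]
        abel

theorem indices_conj [CompleteSpace K] {V : K →L[ℂ] K} (hV : Function.Injective V)
    (hK : ¬ FiniteDimensional ℂ K)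
    (hR : ¬ FiniteDimensional ℂ (K ⧸ LinearMap.range (V : K →ₗ[ℂ] K)))
    (Φ : E ≃L[ℂ] (K × K × K)) : HasIndicesZeroOne (conj Φ (A0 V)) := by
  refine hasIndices_of (S := (SV V).comap (Φ : E →ₗ[ℂ] (K × K × K))) ?_ ?_ ?_ ?_ ?_
  · intro x z hx κ hκ
    rw [kappaSet_conj] at hκ
    refine kappa_nonneg hV (Φ x) z ?_ κ hκ
    simpa using hx
  · intro x z
    rw [kappaSet_conj]
    exact kappa_one V _ z
  · intro x z
    rw [kappaSet_conj, kappa_zero]
    rfl
  · intro hfd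
    apply hK
    let L : K →ₗ[ℂ] ((SV V).comap (Φ : E →ₗ[ℂ] (K × K × K))) :=
      LinearMap.codRestrict _ ((Φ.symm : (K × K × K) →ₗ[ℂ] E) ∘ₗ LinearMap.inl ℂ K (K × K))
        (by
          intro c
          rw [Submodule.mem_comap, mem_SV]
          have : (Φ : E →ₗ[ℂ] (K × K × K)) (((Φ.symm : (K × K × K) →ₗ[ℂ] E) ∘ₗ
            LinearMap.inl ℂ K (K × K)) c) = (c, 0) := by
              change Φ (Φ.symm (c, 0)) = _
              rw [Φ.apply_symm_apply]
          rw [this]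
          exact ⟨⟨0, by simp⟩, ⟨0, by simp⟩⟩)
    have hL : Function.Injective L := by
      intro x y hxy
      have h1 : Φ.symm (x, 0) = Φ.symm (y, 0) := congrArg Subtype.val hxy
      have h2 := Φ.symm.injective h1
      exact congrArg Prod.fst h2
    exact Module.Finite.of_injective L hL
  · intro hfd
    apply hR
    let L : E →ₗ[ℂ] (K ⧸ LinearMap.range (V : K →ₗ[ℂ] K)) :=
      (LinearMap.range (V : K →ₗ[ℂ] K)).mkQ ∘ₗ (p2 : (K × K × K) →L[ℂ] K).toLinearMap ∘ₗ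
        (Φ : E →ₗ[ℂ] (K × K × K))
    have hker : (SV V).comap (Φ : E →ₗ[ℂ] (K × K × K)) ≤ LinearMap.ker L := by
      intro x hx
      rw [Submodule.mem_comap, mem_SV] at hx
      rw [LinearMap.mem_ker]
      change (Submodule.Quotient.mk ((Φ x).2.1) : K ⧸ LinearMap.range (V : K →ₗ[ℂ] K)) = 0
      rw [Submodule.Quotient.mk_eq_zero]
      exact hx.1
    refine Module.Finite.of_surjective (Submodule.liftQ _ L hker) ?_
    intro y
    obtain ⟨y, rfl⟩ := Submodule.Quotient.mk_surjective _ y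
    refine ⟨Submodule.Quotient.mk (Φ.symm (0, y, 0)), ?_⟩
    rw [Submodule.liftQ_apply]
    change (Submodule.Quotient.mk ((Φ (Φ.symm (0, y, 0))).2.1) :
      K ⧸ LinearMap.range (V : K →ₗ[ℂ] K)) = _
    rw [Φ.apply_symm_apply]

theorem holGL_conj (V : K →L[ℂ] K) (Φ : E ≃L[ℂ] (K × K × K)) :
    HolGL (sphere 0 1) (conj Φ (A0 V)) := by
  refine ⟨{0}ᶜ, isOpen_compl_singleton, ?_, ?_, ?_⟩
  · intro z hz h0
    rw [mem_singleton_iff] at h0
    simp [h0] at hz
  · intro z hz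
    refine DifferentiableAt.differentiableWithinAt ?_
    have hz' : z ≠ 0 := hz
    have h1 : DifferentiableAt ℂ (A0 V) z := by
      unfold A0
      fun_prop (disch := assumption)
    unfold conj
    exact (differentiableAt_const _).clm_comp (h1.clm_comp (differentiableAt_const _))
  · intro z hz
    obtain ⟨u, hu⟩ := isUnit_A0 V (show z ≠ 0 from hz)
    have h1 : ∀ x, (u.inv) (A0 V z x) = x := by
      intro x
      have := congrArg (fun L : (K × K × K) →L[ℂ] (K × K × K) => L x) u.inv_val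
      rw [← hu]
      exact this
    have h2 : ∀ x, A0 V z (u.inv x) = x := by
      intro x
      have := congrArg (fun L : (K × K × K) →L[ℂ] (K × K × K) => L x) u.val_inv
      rw [← hu]
      exact this
    refine ⟨⟨conj Φ (A0 V) z, (Φ.symm : (K × K × K) →L[ℂ] E) ∘L u.inv ∘L
      (Φ : E →L[ℂ] (K × K × K)), ?_, ?_⟩, rfl⟩
    · ext x
      change Φ.symm (A0 V z (Φ (Φ.symm (u.inv (Φ x))))) = x
      rw [Φ.apply_symm_apply, h2, Φ.symm_apply_apply]
    · ext x
      change Φ.symm (u.inv (Φ (Φ.symm (A0 V z (Φ x))))) = x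
      rw [Φ.apply_symm_apply, h1, Φ.symm_apply_apply]

theorem notEquiv_conj [CompleteSpace E] {V : K →L[ℂ] K}
    (hV0 : ∀ ε : ℝ, 0 < ε → ∃ e : K, ‖e‖ = 1 ∧ ‖V e‖ ≤ ε)
    (Φ : E ≃L[ℂ] (K × K × K))
    (H₁ H₂ : Submodule ℂ E) (h₁ : IsClosed (H₁ : Set E)) (h₂ : IsClosed (H₂ : Set E))
    (h : IsCompl H₁ H₂) (W : H₁ →L[ℂ] H₂) :
    ¬ Equivalent (conj Φ (A0 V)) (FV H₁ H₂ h₁ h₂ h W) := by
  set N : ℝ := ‖(Φ : E →L[ℂ] (K × K × K))‖ with hN
  set N' : ℝ := ‖(Φ.symm : (K × K × K) →L[ℂ] E)‖ with hN'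
  have hN0 : 0 ≤ N := norm_nonneg _
  have hN0' : 0 ≤ N' := norm_nonneg _
  refine not_equivalent_FV (c := 1 / (N + 1)) (by positivity) ?_ H₁ H₂ h₁ h₂ h W
  intro η hη
  obtain ⟨e, he, hVe⟩ := hV0 (η / (N' + 1)) (by positivity)
  have hsm : ∀ x : K × K × K, ‖x‖ ≤ ‖V e‖ → ‖Φ.symm x‖ ≤ η := by
    intro x hx
    calc ‖Φ.symm x‖ ≤ N' * ‖x‖ := (Φ.symm : (K × K × K) →L[ℂ] E).le_opNorm x
      _ ≤ N' * (η / (N' + 1)) := mul_le_mul_of_nonneg_left (hx.trans hVe) hN0'
      _ ≤ η := by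
        rw [mul_div_assoc', div_le_iff₀ (by positivity)]
        nlinarith
  refine ⟨![fun z => Φ.symm (z ^ 2 • e + z • (0 : K) + 0, V e, z • V e + V 0),
      fun z => Φ.symm (z ^ 2 • (0 : K) + z • e + 0, V 0, z • V 0 + V e),
      fun z => Φ.symm (z ^ 2 • (0 : K) + z • (0 : K) + e, V 0, z • V 0 + V 0)],
    ![fun z => Φ.symm (e + z • (0 : K) + z ^ 2 • (0 : K), -V 0 - z • V 0, -V 0),
      fun z => Φ.symm (0 + z • e + z ^ 2 • (0 : K), -V e - z • V 0, -V 0),
      fun z => Φ.symm (0 + z • (0 : K) + z ^ 2 • e, -V 0 - z • V e, -V e)], ?_, ?_, ?_⟩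
  · intro j
    fin_cases j
    · exact isSection_conj' (isSection_zero V e 0 0)
    · exact isSection_conj' (isSection_zero V 0 e 0)
    · exact isSection_conj' (isSection_zero V 0 0 e)
  · intro z hz
    constructor
    · change ‖Φ.symm _ - z • Φ.symm _‖ ≤ η
      rw [← map_smul Φ.symm, ← map_sub Φ.symm]
      refine hsm _ ?_
      rw [Prod.norm_def, Prod.norm_def]
      simp
    · change ‖Φ.symm _ - z • Φ.symm _‖ ≤ η
      rw [← map_smul Φ.symm, ← map_sub Φ.symm]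
      refine hsm _ ?_
      rw [Prod.norm_def, Prod.norm_def]
      simp [smul_smul, pow_two]
  · change _ ≤ ‖Φ.symm _‖
    rw [div_le_iff₀ (by positivity)]
    set x : K × K × K := (0 + (1 : ℂ) • e + (1 : ℂ) ^ 2 • (0 : K), -V e - (1 : ℂ) • V 0, -V 0) with hx
    have h1 : ‖x‖ ≤ N * ‖Φ.symm x‖ := by
      have := (Φ : E →L[ℂ] (K × K × K)).le_opNorm (Φ.symm x)
      simpa using this
    have h2 : 1 ≤ ‖x‖ := by
      have h3 : ‖x.1‖ ≤ ‖x‖ := norm_fst_le x
      have h4 : x.1 = e := by simp [hx]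
      rw [h4, he] at h3
      exact h3
    have h5 : 0 ≤ ‖Φ.symm x‖ := norm_nonneg _
    nlinarith

end modelfacts

section concrete

/-- the Hilbert space `ℓ²(ℕ)` -/
abbrev K2 : Type := lp (fun _ : ℕ => ℂ) 2

/-- the sequence `(V x)(2n) = x(n) / (2n+1)`, `(V x)(2n+1) = 0` -/
def vfun (x : ℕ → ℂ) (m : ℕ) : ℂ := if m % 2 = 0 then x (m / 2) / ((m : ℂ) + 1) else 0

theorem vfun_sum_le (x : K2) (s : Finset ℕ) :
    ∑ m ∈ s, ‖vfun x m‖ ^ (2 : ℝ) ≤ ‖x‖ ^ (2 : ℝ) := by
  have h1 : ∑ m ∈ s, ‖vfun x m‖ ^ (2 : ℝ) ≤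
      ∑ m ∈ s.filter (fun m => m % 2 = 0), ‖x (m / 2)‖ ^ (2 : ℝ) := by
    rw [Finset.sum_filter]
    refine Finset.sum_le_sum (fun m _ => ?_)
    by_cases hm : m % 2 = 0
    · simp only [vfun, hm, if_true]
      refine Real.rpow_le_rpow (norm_nonneg _) ?_ (by norm_num)
      rw [norm_div]
      refine div_le_self (norm_nonneg _) ?_
      have : ((m : ℂ) + 1) = ((m + 1 : ℕ) : ℂ) := by push_cast; rfl
      rw [this, Complex.norm_natCast]
      exact_mod_cast Nat.succ_le_succ (Nat.zero_le m)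
    · simp [vfun, hm]
  have h2 : ∑ m ∈ s.filter (fun m => m % 2 = 0), ‖x (m / 2)‖ ^ (2 : ℝ) =
      ∑ n ∈ (s.filter (fun m => m % 2 = 0)).image (fun m => m / 2), ‖x n‖ ^ (2 : ℝ) := by
    rw [Finset.sum_image]
    intro a ha b hb hab
    simp only [Finset.coe_filter, mem_setOf_eq] at ha hb
    simp only at hab
    omega
  have h3 := lp.sum_rpow_le_norm_rpow (p := 2) (by norm_num) x
    ((s.filter (fun m => m % 2 = 0)).image (fun m => m / 2))
  simp only [ENNReal.toReal_ofNat] at h3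
  exact h1.trans (h2.le.trans h3)

theorem vfun_mem (x : K2) : Memℓp (vfun x) 2 := by
  refine memℓp_gen' (C := ‖x‖ ^ (2 : ℝ)) ?_
  intro s
  simp only [ENNReal.toReal_ofNat]
  exact vfun_sum_le x s

/-- the operator `V` -/
def V0 : K2 →L[ℂ] K2 :=
  LinearMap.mkContinuous
    { toFun := fun x => ⟨vfun x, vfun_mem x⟩
      map_add' := by
        intro x y
        ext m
        by_cases hm : m % 2 = 0
        · simp [vfun, hm, add_div]
        · simp [vfun, hm]
      map_smul' := by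
        intro c x
        ext m
        by_cases hm : m % 2 = 0
        · simp [vfun, hm, mul_div_assoc]
        · simp [vfun, hm] } 1 (by
    intro x
    rw [one_mul]
    refine lp.norm_le_of_forall_sum_le (p := 2) (by norm_num) (norm_nonneg _) ?_
    intro s
    simp only [ENNReal.toReal_ofNat]
    exact vfun_sum_le x s)

theorem V0_apply (x : K2) (m : ℕ) : V0 x m = if m % 2 = 0 then x (m / 2) / ((m : ℂ) + 1) else 0 :=
  rfl

theorem V0_injective : Function.Injective V0 := by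
  intro x y hxy
  ext n
  have h1 : V0 x (2 * n) = V0 y (2 * n) := by rw [hxy]
  rw [V0_apply, V0_apply] at h1
  have h2 : 2 * n % 2 = 0 := by omega
  have h3 : 2 * n / 2 = n := by omega
  rw [if_pos h2, if_pos h2, h3] at h1
  have h4 : (((2 * n : ℕ) : ℂ) + 1) ≠ 0 := by exact_mod_cast Nat.succ_ne_zero (2 * n)
  exact (div_left_inj' h4).1 h1

theorem V0_small (ε : ℝ) (hε : 0 < ε) : ∃ e : K2, ‖e‖ = 1 ∧ ‖V0 e‖ ≤ ε := by
  obtain ⟨n, hn⟩ := exists_nat_one_div_lt hε
  refine ⟨lp.single 2 n (1 : ℂ), ?_, ?_⟩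
  · rw [lp.norm_single (by norm_num)]
    simp
  · have : V0 (lp.single 2 n (1 : ℂ)) = lp.single 2 (2 * n) (1 / (((2 * n : ℕ) : ℂ) + 1)) := by
      ext m
      rw [V0_apply]
      by_cases hm : m = 2 * n
      · subst hm
        have h2 : 2 * n % 2 = 0 := by omega
        have h3 : 2 * n / 2 = n := by omega
        rw [if_pos h2, h3, lp.single_apply_self, lp.single_apply_self]
      · rw [lp.single_apply_ne _ _ _ hm]
        by_cases h2 : m % 2 = 0
        · have h3 : m / 2 ≠ n := by omega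
          rw [if_pos h2, lp.single_apply_ne _ _ _ h3, zero_div]
        · rw [if_neg h2]
    rw [this, lp.norm_single (by norm_num)]
    rw [norm_div, norm_one]
    have h5 : (((2 * n : ℕ) : ℂ) + 1) = ((2 * n + 1 : ℕ) : ℂ) := by push_cast; rfl
    rw [h5, Complex.norm_natCast]
    refine le_trans ?_ hn.le
    refine one_div_le_one_div_of_le (by positivity) ?_
    push_cast
    have : (0 : ℝ) ≤ n := Nat.cast_nonneg n
    linarith

/-- reading off the odd coordinates -/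
def oddMap : K2 →ₗ[ℂ] (ℕ → ℂ) where
  toFun x n := x (2 * n + 1)
  map_add' x y := by ext n; simp
  map_smul' c x := by ext n; simp

theorem not_fd_of_odd {F : Type*} [AddCommGroup F] [Module ℂ F] (L : F →ₗ[ℂ] (ℕ → ℂ))
    (e : ℕ → F) (h : ∀ n, L (e n) = Pi.single n 1) : ¬ FiniteDimensional ℂ F := by
  intro hfd
  have h1 : LinearIndependent ℂ (fun n : ℕ => (Pi.single n 1 : ℕ → ℂ)) :=
    Pi.linearIndependent_single_one ℕ ℂ
  have h2 : LinearIndependent ℂ e := by
    refine LinearIndependent.of_comp L ?_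
    have : (⇑L ∘ e) = fun n : ℕ => (Pi.single n 1 : ℕ → ℂ) := by
      funext n; exact h n
    rw [this]
    exact h1
  exact not_finite_iff_infinite.2 inferInstance (h2.finite)

end concrete

section final

/-- all coordinates -/
def allMap : K2 →ₗ[ℂ] (ℕ → ℂ) where
  toFun x n := x n
  map_add' x y := by ext n; simp
  map_smul' c x := by ext n; simp

theorem not_fd_K2 : ¬ FiniteDimensional ℂ K2 := by
  refine not_fd_of_odd allMap (fun n => lp.single 2 n (1 : ℂ)) ?_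
  intro n
  funext m
  change (lp.single 2 n (1 : ℂ) : K2) m = _
  by_cases h : m = n
  · subst h
    rw [lp.single_apply_self, Pi.single_eq_same]
  · rw [lp.single_apply_ne _ _ _ h, Pi.single_eq_of_ne h]

theorem not_fd_quot : ¬ FiniteDimensional ℂ (K2 ⧸ LinearMap.range (V0 : K2 →ₗ[ℂ] K2)) := by
  have hker : LinearMap.range (V0 : K2 →ₗ[ℂ] K2) ≤ LinearMap.ker oddMap := by
    rintro _ ⟨x, rfl⟩
    rw [LinearMap.mem_ker]
    funext n
    change V0 x (2 * n + 1) = 0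
    rw [V0_apply, if_neg (by omega)]
  refine not_fd_of_odd (Submodule.liftQ _ oddMap hker)
    (fun n => Submodule.Quotient.mk (lp.single 2 (2 * n + 1) (1 : ℂ))) ?_
  intro n
  rw [Submodule.liftQ_apply]
  funext m
  change (lp.single 2 (2 * n + 1) (1 : ℂ) : K2) (2 * m + 1) = _
  by_cases h : m = n
  · subst h
    rw [lp.single_apply_self, Pi.single_eq_same]
  · rw [lp.single_apply_ne _ _ _ (by omega), Pi.single_eq_of_ne h]

/-- the Hilbert space `K ⊕ K ⊕ K` -/
abbrev H3 : Type := WithLp 2 (K2 × WithLp 2 (K2 × K2))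

/-- coordinates on `K ⊕ K ⊕ K` -/
def Phi : H3 ≃L[ℂ] (K2 × K2 × K2) :=
  (WithLp.prodContinuousLinearEquiv 2 ℂ K2 (WithLp 2 (K2 × K2))).trans
    ((ContinuousLinearEquiv.refl ℂ K2).prodCongr (WithLp.prodContinuousLinearEquiv 2 ℂ K2 K2))

end final

/-- **Answer: no.** There are a complex Hilbert space `H` and `A ∈ O(T, GL(H))` whose
indices are exactly `0` and `1`, both of infinite dimension, such that `A` is equivalent to no
function of the form `F_V`. -/
theorem result : ∃ (H : Type) (_ : NormedAddCommGroup H) (_ : InnerProductSpace ℂ H)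
    (_ : CompleteSpace H) (A : ℂ → H →L[ℂ] H),
    HolGL (sphere 0 1) A ∧ HasIndicesZeroOne A ∧
    ∀ (H₁ H₂ : Submodule ℂ H) (h₁ : IsClosed (H₁ : Set H)) (h₂ : IsClosed (H₂ : Set H))
      (h : IsCompl H₁ H₂) (V : H₁ →L[ℂ] H₂), ¬ Equivalent A (FV H₁ H₂ h₁ h₂ h V) :=
  ⟨H3, inferInstance, inferInstance, inferInstance, conj Phi (A0 V0), holGL_conj V0 Phi,
    indices_conj V0_injective not_fd_K2 not_fd_quot Phi,
    fun H₁ H₂ h₁ h₂ h V => notEquiv_conj V0_small Phi H₁ H₂ h₁ h₂ h V⟩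

end

end Pool.Agent.Results.MP_d272b1_an.NotEquivalentFV
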